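import Mathlib
import Pool.Agent.V5helper76.SP.Poly

/-!
# Ridout's theorem for families of binary forms
-/

set_option autoImplicit false

namespace Pool.Agent.V5helper76.SPG

open Polynomial Finset
open Pool.Agent.Y670.RD
open Pool.Agent.V5helper76.SP (Lam Lam_nonneg Lam_zero Lam_mul Lam_mul_le Lam_le_mul Lam_prod Lam_norm
  aff aff_eval₂ aff_map aff_irr)

variable {S : Finset ℕ}

/-- the value of the binary form of `g` at `(x, t)` -/
noncomputable def fm (g : ℤ[X]) (x t : ℤ) : ℤ := fv g.natDegree g x t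

/-- the logarithmic height -/
noncomputable def ht (x t : ℤ) : ℝ := Real.log (max |(x : ℝ)| |(t : ℝ)|)

lemma max_ge {x t : ℤ} (ht : t ≠ 0) : 1 ≤ max |(x : ℝ)| |(t : ℝ)| :=
  le_max_of_le_right (by exact_mod_cast Int.one_le_abs ht)

lemma ht_nonneg {x t : ℤ} (h : t ≠ 0) : 0 ≤ ht x t := Real.log_nonneg (max_ge h)

lemma fm_mul {f g : ℤ[X]} (hf : f ≠ 0) (hg : g ≠ 0) (x : ℤ) {t : ℤ} (ht : t ≠ 0) :
    fm (f * g) x t = fm f x t * fm g x t := by
  unfold fm
  rw [natDegree_mul hf hg, fv_mul le_rfl le_rfl ht]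

lemma fm_C (c x t : ℤ) : fm (C c) x t = c := by
  unfold fm fv
  simp

lemma fm_prod {ι : Type*} (A : Finset ι) (g : ι → ℤ[X]) (hg : ∀ i ∈ A, g i ≠ 0) (x : ℤ) {t : ℤ}
    (ht : t ≠ 0) : fm (∏ i ∈ A, g i) x t = ∏ i ∈ A, fm (g i) x t := by
  classical
  induction A using Finset.induction_on with
  | empty =>
    rw [prod_empty, prod_empty, ← C_1, fm_C]
  | insert a A ha ih =>
    rw [prod_insert ha, prod_insert ha, fm_mul (hg a (mem_insert_self _ _)) _ x ht, ih]
    · intro i hi; exact hg i (mem_insert_of_mem hi)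
    · exact prod_ne_zero_iff.2 fun i hi => hg i (mem_insert_of_mem hi)

/-- Ridout's theorem: the `S`-part of `G(x, t)` for a squarefree form `G` -/
lemma rid_form_log (hS : ∀ p ∈ S, p.Prime) (G : ℤ[X])
    (hG : Squarefree (G.map (Int.castRingHom ℚ))) :
    ∃ C : ℝ, 0 ≤ C ∧ ∀ x t : ℤ, IsCoprime x t → t ≠ 0 → Lam S (fm G x t) ≤ 3 * ht x t + C := by
  rcases Nat.eq_zero_or_pos G.natDegree with hd | hd
  · obtain ⟨c, hc⟩ := natDegree_eq_zero.1 hd
    refine ⟨Lam S c, Lam_nonneg hS _, fun x t _ ht0 => ?_⟩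
    rw [← hc, fm_C]
    have := ht_nonneg (x := x) ht0
    linarith
  · obtain ⟨c, hc, h⟩ := rid_form' G hG hd S hS 1 one_pos
    set K : ℝ := (∑ i ∈ range (G.natDegree + 1), |(G.coeff i : ℝ)|) with hK
    refine ⟨|Real.log K - Real.log c|, abs_nonneg _, fun x t hxt ht0 => ?_⟩
    set M := max |(x : ℝ)| |(t : ℝ)| with hM
    have h1 : 1 ≤ M := max_ge ht0
    have h1' : (0 : ℝ) < M := by linarith
    have h2 : 0 ≤ ht x t := ht_nonneg ht0
    have hh : ht x t = Real.log M := rfl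
    rcases eq_or_ne (fm G x t) 0 with h0 | h0
    · rw [h0, Lam_zero]; positivity
    have h3 := h x t hxt h0
    have h4 := fv_le G.natDegree G x t
    rw [← hM] at h3
    rw [← hM, ← hK] at h4
    change |((fm G x t : ℤ) : ℝ)| ≤ _ at h4
    change _ ≤ |((fm G x t : ℤ) : ℝ)| * ∏ p ∈ S, (padicNorm p ((fm G x t : ℤ) : ℚ) : ℝ) at h3
    have h5 := Lam_norm hS h0
    set P := ∏ p ∈ S, (padicNorm p ((fm G x t : ℤ) : ℚ) : ℝ) with hP
    have hE : 0 < Real.exp (Lam S (fm G x t)) := Real.exp_pos _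
    have h6 : c * M ^ ((G.natDegree : ℝ) - 2 - 1) * Real.exp (Lam S (fm G x t)) ≤
        K * M ^ (G.natDegree) := by
      calc c * M ^ ((G.natDegree : ℝ) - 2 - 1) * Real.exp (Lam S (fm G x t))
          ≤ (|((fm G x t : ℤ) : ℝ)| * P) * Real.exp (Lam S (fm G x t)) :=
            mul_le_mul_of_nonneg_right h3 hE.le
        _ = |((fm G x t : ℤ) : ℝ)| * (P * Real.exp (Lam S (fm G x t))) := by ring
        _ ≤ _ := by rw [h5, mul_one]; exact h4
    have hx0 : (0 : ℝ) < M ^ ((G.natDegree : ℝ) - 2 - 1) := Real.rpow_pos_of_pos h1' _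
    have hxd : (0 : ℝ) < M ^ (G.natDegree) := by positivity
    have hK0 : 0 < K := by
      by_contra hcon
      have : 0 < K * M ^ (G.natDegree) := lt_of_lt_of_le (by positivity) h6
      nlinarith
    have h7 := Real.log_le_log (by positivity) h6
    rw [Real.log_mul (by positivity) hE.ne', Real.log_mul hc.ne' hx0.ne', Real.log_exp,
      Real.log_mul hK0.ne' hxd.ne', Real.log_rpow h1', Real.log_pow] at h7
    have h8 := le_abs_self (Real.log K - Real.log c)
    rw [hh]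
    linarith

/-- Ridout's theorem for families of forms -/
lemma fam (hS : ∀ p ∈ S, p.Prime) {ι : Type*} (J : Finset ι) (g : ι → ℤ[X])
    (hirr : ∀ j ∈ J, Irreducible ((g j).map (Int.castRingHom ℚ)))
    (hna : ∀ i ∈ J, ∀ j ∈ J, i ≠ j →
      ¬ Associated ((g i).map (Int.castRingHom ℚ)) ((g j).map (Int.castRingHom ℚ))) :
    ∃ C : ℝ, 0 ≤ C ∧ ∀ x t : ℤ, IsCoprime x t → t ≠ 0 →
      ∑ j ∈ J, Lam S (fm (g j) x t) ≤ 3 * ht x t + C := by
  classical
  have hg0 : ∀ j ∈ J, g j ≠ 0 := by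
    intro j hj h
    have := hirr j hj
    rw [h, Polynomial.map_zero] at this
    exact not_irreducible_zero this
  have key : ∀ J' : Finset ι, ∃ C : ℝ, 0 ≤ C ∧ (J' ⊆ J → ∀ x t : ℤ, IsCoprime x t → t ≠ 0 →
      Lam S (fm (∏ j ∈ J', g j) x t) ≤ 3 * ht x t + C) := by
    intro J'
    by_cases hJ : J' ⊆ J
    · have hsq : Squarefree ((∏ j ∈ J', g j).map (Int.castRingHom ℚ)) := by
        rw [Polynomial.map_prod]
        apply Finset.squarefree_prod_of_pairwise_isCoprime
        · intro i hi j hj hij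
          refine (((hirr i (hJ hi)).coprime_iff_not_dvd).2 ?_).isRelPrime
          intro hdvd
          exact hna i (hJ hi) j (hJ hj) hij
            ((hirr i (hJ hi)).associated_of_dvd (hirr j (hJ hj)) hdvd)
        · intro i hi
          exact (hirr i (hJ hi)).squarefree
      obtain ⟨C, hC, h⟩ := rid_form_log hS _ hsq
      exact ⟨C, hC, fun _ => h⟩
    · exact ⟨0, le_rfl, fun h => absurd h hJ⟩
  choose C hC0 hC using key
  refine ⟨∑ J' ∈ J.powerset, C J', sum_nonneg fun J' _ => hC0 J', fun x t hxt ht0 => ?_⟩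
  set J' := J.filter fun j => fm (g j) x t ≠ 0 with hJ'
  have h1 : ∑ j ∈ J, Lam S (fm (g j) x t) = ∑ j ∈ J', Lam S (fm (g j) x t) := by
    rw [hJ', sum_filter]
    refine sum_congr rfl fun j _ => ?_
    split_ifs with h
    · rfl
    · rw [not_not.1 h, Lam_zero]
  rw [h1, ← Lam_prod hS J' _ (fun j hj => (mem_filter.1 hj).2),
    ← fm_prod J' g (fun j hj => hg0 j (mem_filter.1 hj).1) x ht0]
  have h2 := hC J' (filter_subset _ _) x t hxt ht0
  have h3 : C J' ≤ ∑ J' ∈ J.powerset, C J' :=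
    single_le_sum (fun J' _ => hC0 J') (mem_powerset.2 (filter_subset _ _))
  linarith

lemma aff_natDegree {g : ℤ[X]} {s a : ℤ} (ha : a ≠ 0) (c : ℤ) :
    (aff g s a c).natDegree = g.natDegree := by
  unfold aff
  rw [natDegree_comp, natDegree_scaleRoots, natDegree_linear ha, mul_one]

lemma aff_fm (g : ℤ[X]) {s a c x y t : ℤ} (hs : s ≠ 0) (ha : a ≠ 0) (ht : t ≠ 0)
    (h : s * y = a * x + c * t) :
    fm (aff g s a c) x t = s ^ g.natDegree * fm g y t := by
  have ht' : (t : ℚ) ≠ 0 := by exact_mod_cast ht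
  have hs' : (s : ℚ) ≠ 0 := by exact_mod_cast hs
  have h1 : ((fm (aff g s a c) x t : ℤ) : ℚ) = ((s ^ g.natDegree * fm g y t : ℤ) : ℚ) := by
    unfold fm
    rw [fvq le_rfl ht, aff_natDegree ha]
    push_cast
    rw [fvq le_rfl ht]
    have e1 : aeval ((x : ℚ) / t) (aff g s a c) =
        (s : ℚ) ^ g.natDegree * aeval ((y : ℚ) / t) g := by
      have h2 := aff_eval₂ g hs a c ((x : ℚ) / t)
      have h3 : ((a : ℚ) * ((x : ℚ) / t) + c) / s = (y : ℚ) / t := by
        have h' : (s : ℚ) * y = a * x + c * t := by exact_mod_cast h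
        field_simp
        linarith
      rw [h3] at h2
      rw [aeval_def, aeval_def]
      exact h2
    rw [e1]
    ring
  exact_mod_cast h1

end Pool.Agent.V5helper76.SPG
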