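import Mathlib
import Pool.Agent.V5helper76.SPG.Form
import Pool.Agent.V5helper76.SP.Window
import Pool.Agent.V5helper5.AB.Cyc

/-!
# `S`-parts in a window of a trajectory of `x ↦ x / 2`, `(a x + κ t) / 2`, uniformly in `t`
-/

set_option autoImplicit false

namespace Pool.Agent.V5helper76.SPG

open Polynomial Finset
open Pool.Agent.V5helper5.AB (T od two_T)
open Pool.Agent.V5helper76.SP (Lam Lam_nonneg Lam_zero Lam_mul Lam_mul_le Lam_le_mul Lam_prod Lam_norm
  aff aff_eval₂ aff_map aff_irr assoc_root)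

variable {S : Finset ℕ}

/-- no root of `f` is the fixed point of the affine map of the first `j` steps, for any `j ≥ 1` -/
def Fre (a κ t : ℤ) (f : ℤ[X]) (x : ℤ) : Prop :=
  ∀ j : ℕ, 1 ≤ j → ∀ r : ℚ, aeval r f = 0 →
    (2 : ℚ) ^ j * ((T a (κ * t))^[j] x - r * t) ≠ a ^ od a (κ * t) j x * (x - r * t)

/-! ### words -/

/-- the number of elements of `U` in `[i, i + l)` -/
def oc (U : Finset ℕ) (i : ℕ) : ℕ → ℕ
  | 0 => 0
  | l + 1 => oc U i l + if i + l ∈ U then 1 else 0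

/-- the constant term of the affine map of a word -/
def kc (a κ : ℤ) (U : Finset ℕ) (i : ℕ) : ℕ → ℤ
  | 0 => 0
  | l + 1 => if i + l ∈ U then a * kc a κ U i l + κ * 2 ^ l else kc a κ U i l

lemma oc_add (U : Finset ℕ) (i l : ℕ) : oc U 0 (i + l) = oc U 0 i + oc U i l := by
  induction l with
  | zero => simp [oc]
  | succ l ih =>
    rw [← add_assoc, oc, oc, ih, zero_add]
    omega

lemma kc_add (a κ : ℤ) (U : Finset ℕ) (i l : ℕ) :
    kc a κ U 0 (i + l) = a ^ oc U i l * kc a κ U 0 i + 2 ^ i * kc a κ U i l := by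
  induction l with
  | zero => simp [oc, kc]
  | succ l ih =>
    rw [← add_assoc, kc, kc, oc, zero_add, ih]
    split_ifs with h
    · rw [pow_succ, pow_add]; ring
    · rw [add_zero]

lemma seq_rel {a κ t : ℤ} (ha : a % 2 = 1) (hκ : (κ * t) % 2 = 1) (x : ℤ) (U : Finset ℕ) (m : ℕ)
    (hU : ∀ s < m, (s ∈ U ↔ (T a (κ * t))^[s] x % 2 ≠ 0)) (i : ℕ) : ∀ l : ℕ, i + l ≤ m →
      2 ^ l * (T a (κ * t))^[i + l] x = a ^ oc U i l * (T a (κ * t))^[i] x + kc a κ U i l * t ∧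
      oc U i l = od a (κ * t) l ((T a (κ * t))^[i] x) := by
  intro l
  induction l with
  | zero => intro _; simp [oc, kc, od]
  | succ l ih =>
    intro hl
    obtain ⟨h1, h2⟩ := ih (by omega)
    have h3 := two_T ha hκ ((T a (κ * t))^[i + l] x)
    have h4 := hU (i + l) (by omega)
    have h5 : (T a (κ * t))^[l] ((T a (κ * t))^[i] x) = (T a (κ * t))^[i + l] x := by
      rw [← Function.iterate_add_apply, add_comm]
    rw [← add_assoc, Function.iterate_succ_apply', oc, kc, od, h5]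
    set y := (T a (κ * t))^[i + l] x with hy
    by_cases hp : y % 2 = 0
    · have hn : i + l ∉ U := fun h => (h4.1 h) hp
      rw [if_pos hp] at h3
      rw [if_neg hn, if_neg hn, if_pos hp, add_zero, add_zero]
      refine ⟨?_, h2⟩
      rw [pow_succ, mul_assoc, h3, h1]
    · have hn : i + l ∈ U := h4.2 hp
      rw [if_neg hp] at h3
      rw [if_pos hn, if_pos hn, if_neg hp]
      refine ⟨?_, by rw [h2]⟩
      rw [pow_succ, mul_assoc, h3, pow_succ]
      linear_combination a * h1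

/-- a finite set preserved by an affine map which is not an isometry is its fixed point -/
lemma fixed_root (R : Finset ℂ) (hR : R.Nonempty) (σ α γ : ℤ) (hσ : 0 < σ) (hα : α ≠ 0)
    (hne : σ ≠ |α|) (h : ∀ z ∈ R, ((α : ℂ) * z + γ) / σ ∈ R) :
    (((γ : ℚ) / (σ - α) : ℚ) : ℂ) ∈ R := by
  have hσ' : (σ : ℂ) ≠ 0 := by exact_mod_cast hσ.ne'
  have hα' : (α : ℂ) ≠ 0 := by exact_mod_cast hα
  have hne' : σ ≠ α := by
    intro h1
    apply hne
    rw [← h1]; exact (abs_of_pos hσ).symm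
  have hd : (σ : ℂ) - α ≠ 0 := by
    rw [sub_ne_zero]; exact_mod_cast hne'
  set F : ℂ → ℂ := fun z => ((α : ℂ) * z + γ) / σ with hF
  set z0 : ℂ := (((γ : ℚ) / (σ - α) : ℚ) : ℂ) with hz0
  have hz0' : z0 = (γ : ℂ) / (σ - α) := by rw [hz0]; push_cast; rfl
  have hinj : Function.Injective F := by
    intro z w hzw
    simp only [hF] at hzw
    rw [div_left_inj' hσ', add_left_inj] at hzw
    exact mul_left_cancel₀ hα' hzw
  have himg : R.image F = R := by
    apply Finset.eq_of_subset_of_card_le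
    · intro y hy
      obtain ⟨z, hz, rfl⟩ := Finset.mem_image.1 hy
      exact h z hz
    · rw [Finset.card_image_of_injective _ hinj]
  have hdist : ∀ z, ‖F z - z0‖ = (|(α : ℝ)| / σ) * ‖z - z0‖ := by
    intro z
    have h1 : F z - z0 = ((α : ℂ) / σ) * (z - z0) := by
      rw [hz0', hF]
      field_simp
      ring
    rw [h1, norm_mul, norm_div]
    have h2 : ‖(α : ℂ)‖ = |(α : ℝ)| := Complex.norm_intCast _
    have h3 : ‖(σ : ℂ)‖ = σ := by
      rw [Complex.norm_intCast]; exact abs_of_pos (by exact_mod_cast hσ)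
    rw [h2, h3]
  have hsum : ∑ z ∈ R, ‖z - z0‖ = (|(α : ℝ)| / σ) * ∑ z ∈ R, ‖z - z0‖ := by
    conv_lhs => rw [← himg]
    rw [Finset.sum_image (fun a _ b _ hab => hinj hab), Finset.mul_sum]
    exact sum_congr rfl fun z _ => hdist z
  have hne1 : (|(α : ℝ)| / σ) ≠ 1 := by
    rw [Ne, div_eq_one_iff_eq (by exact_mod_cast hσ.ne')]
    intro h
    exact hne (by exact_mod_cast h.symm)
  have hzero : ∑ z ∈ R, ‖z - z0‖ = 0 := by
    have h1 : (1 - |(α : ℝ)| / σ) * ∑ z ∈ R, ‖z - z0‖ = 0 := by linarith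
    rcases mul_eq_zero.1 h1 with h2 | h2
    · exact absurd (by linarith : (|(α : ℝ)| / σ) = 1) hne1
    · exact h2
  obtain ⟨z, hz⟩ := hR
  have h1 := (Finset.sum_eq_zero_iff_of_nonneg (fun z _ => norm_nonneg (z - z0))).1 hzero z hz
  rw [norm_eq_zero, sub_eq_zero] at h1
  rw [← h1]; exact hz

lemma two_pow_ne {a : ℤ} (ha : a % 2 = 1) {l o : ℕ} (hl : 1 ≤ l) : (2 : ℤ) ^ l ≠ |a ^ o| := by
  intro h
  have h4 : (2 : ℤ) ∣ a ^ o := by
    rw [← Int.natAbs_dvd_natAbs] at *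
    have h5 : (2 : ℤ) ∣ |a ^ o| := by rw [← h]; exact dvd_pow_self 2 (by omega)
    have := Int.natAbs_dvd_natAbs.2 h5
    rwa [Int.natAbs_abs] at this
  have h5 : (2 : ℤ) ∣ a := Int.prime_two.dvd_of_dvd_pow h4
  omega

/-- if the transforms of `g` for two initial parts of a word are associated then a rational root of `g` is the
fixed point of the part between -/
lemma not_assoc {g : ℤ[X]} (hg : Irreducible (g.map (Int.castRingHom ℚ))) {a : ℤ} (ha : a % 2 = 1)
    (κ : ℤ) (U : Finset ℕ) {i l : ℕ} (hl1 : 1 ≤ l)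
    (hass : Associated ((aff g (2 ^ i) (a ^ oc U 0 i) (kc a κ U 0 i)).map (Int.castRingHom ℚ))
      ((aff g (2 ^ (i + l)) (a ^ oc U 0 (i + l)) (kc a κ U 0 (i + l))).map (Int.castRingHom ℚ))) :
    ∃ r : ℚ, aeval r g = 0 ∧ (2 : ℚ) ^ l * r = a ^ oc U i l * r + kc a κ U i l := by
  have ha0 : a ≠ 0 := by rintro rfl; simp at ha
  -- the roots
  have hg0 : g ≠ 0 := by
    rintro rfl
    simp at hg
  set R : Finset ℂ := (g.map (Int.castRingHom ℂ)).roots.toFinset with hR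
  have hgC : g.map (Int.castRingHom ℂ) ≠ 0 :=
    (Polynomial.map_ne_zero_iff (RingHom.injective_int _)).2 hg0
  have hmem : ∀ z : ℂ, z ∈ R ↔ g.eval₂ (Int.castRingHom ℂ) z = 0 := by
    intro z
    rw [hR, Multiset.mem_toFinset, mem_roots hgC, IsRoot.def, eval_map]
  have hne : R.Nonempty := by
    have hdeg : 0 < (g.map (Int.castRingHom ℂ)).degree := by
      rw [degree_map_eq_of_injective (RingHom.injective_int _),
        ← degree_map_eq_of_injective (RingHom.injective_int (Int.castRingHom ℚ)) g]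
      exact hg.degree_pos
    obtain ⟨z, hz⟩ := Complex.exists_root hdeg
    exact ⟨z, (hmem z).2 (by rw [← eval_map]; exact hz)⟩
  have h2l : (0 : ℤ) < 2 ^ l := by positivity
  have hne2 : (2 : ℤ) ^ l ≠ |a ^ oc U i l| := two_pow_ne ha hl1
  have hmap : ∀ z ∈ R, (((a ^ oc U i l : ℤ) : ℂ) * z + (kc a κ U i l : ℤ)) / ((2 ^ l : ℤ) : ℂ) ∈ R := by
    intro z hz
    have h2i : ((2 : ℂ)) ^ i ≠ 0 := pow_ne_zero _ two_ne_zero
    have haC : (a : ℂ) ≠ 0 := by exact_mod_cast ha0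
    -- the preimage
    set w : ℂ := (2 ^ i * z - kc a κ U 0 i) / a ^ oc U 0 i with hw
    have h3i : ((a : ℂ)) ^ oc U 0 i ≠ 0 := pow_ne_zero _ haC
    have hw1 : (((a ^ oc U 0 i : ℤ) : ℂ) * w + (kc a κ U 0 i : ℤ)) / ((2 ^ i : ℤ) : ℂ) = z := by
      rw [hw]; push_cast; field_simp; ring
    have hw2 : (((a ^ oc U 0 (i + l) : ℤ) : ℂ) * w + (kc a κ U 0 (i + l) : ℤ)) / ((2 ^ (i + l) : ℤ) : ℂ) =
        (((a ^ oc U i l : ℤ) : ℂ) * z + (kc a κ U i l : ℤ)) / ((2 ^ l : ℤ) : ℂ) := by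
      rw [oc_add, kc_add, ← hw1]
      push_cast
      rw [pow_add, pow_add]
      field_simp
      ring
    have e1 := aff_eval₂ g (s := 2 ^ i) (by positivity) (a ^ oc U 0 i) (kc a κ U 0 i) w
    have e2 := aff_eval₂ g (s := 2 ^ (i + l)) (by positivity) (a ^ oc U 0 (i + l))
      (kc a κ U 0 (i + l)) w
    rw [hw1, (hmem z).1 hz, mul_zero] at e1
    have e3 := assoc_root hass w e1
    rw [e3, hw2] at e2
    rw [hmem]
    rcases mul_eq_zero.1 e2.symm with h | h
    · exfalso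
      have : (((2 ^ (i + l) : ℤ) : ℂ)) ^ g.natDegree ≠ 0 := by
        push_cast
        exact pow_ne_zero _ (pow_ne_zero _ two_ne_zero)
      exact this h
    · exact h
  have hroot := fixed_root R hne (2 ^ l) (a ^ oc U i l) (kc a κ U i l) h2l (pow_ne_zero _ ha0) hne2 hmap
  set r : ℚ := ((kc a κ U i l : ℤ) : ℚ) / (((2 ^ l : ℤ) : ℚ) - ((a ^ oc U i l : ℤ) : ℚ)) with hr
  rw [hmem] at hroot
  have hr0 : aeval r g = 0 := by
    have h1 : ((aeval r g : ℚ) : ℂ) = 0 := by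
      have h2 : ((aeval r g : ℚ) : ℂ) = g.eval₂ (Int.castRingHom ℂ) ((r : ℚ) : ℂ) := by
        rw [aeval_def]
        have := hom_eval₂ g (algebraMap ℤ ℚ) (algebraMap ℚ ℂ) r
        have h3 : (algebraMap ℚ ℂ).comp (algebraMap ℤ ℚ) = Int.castRingHom ℂ :=
          RingHom.ext_int _ _
        rw [h3] at this
        exact this
      rw [h2]; exact hroot
    exact_mod_cast h1
  refine ⟨r, hr0, ?_⟩
  have hden : ((2 : ℚ) ^ l - a ^ oc U i l) ≠ 0 := by
    rw [sub_ne_zero]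
    intro h
    have h1 : (2 : ℤ) ^ l = a ^ oc U i l := by exact_mod_cast h
    apply hne2
    rw [← h1, abs_of_pos h2l]
  rw [hr]; push_cast; field_simp; ring

lemma cop_T {a κ t : ℤ} (ha : a % 2 = 1) (hκ : (κ * t) % 2 = 1) (hat : IsCoprime a t) {x : ℤ}
    (hx : IsCoprime x t) : IsCoprime (T a (κ * t) x) t := by
  have h := two_T ha hκ x
  have h2 : IsCoprime (2 * T a (κ * t) x) t := by
    rw [h]
    split_ifs with h1
    · exact hx
    · exact (hat.mul_left hx).add_mul_right_left κ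
  exact h2.of_mul_left_right

lemma cop_iter {a κ t : ℤ} (ha : a % 2 = 1) (hκ : (κ * t) % 2 = 1) (hat : IsCoprime a t) {x : ℤ}
    (hx : IsCoprime x t) (i : ℕ) : IsCoprime ((T a (κ * t))^[i] x) t := by
  induction i with
  | zero => exact hx
  | succ i ih =>
    rw [Function.iterate_succ_apply']
    exact cop_T ha hκ hat ih

/-- the window lemma for an irreducible polynomial -/
lemma irr_window (hS : ∀ p ∈ S, p.Prime) {g : ℤ[X]} (hg : Irreducible (g.map (Int.castRingHom ℚ)))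
    {a : ℤ} (ha : a % 2 = 1) (κ : ℤ) (m : ℕ) : ∃ C : ℝ, 0 ≤ C ∧ ∀ t : ℤ, (κ * t) % 2 = 1 →
      ∀ x : ℤ, IsCoprime x t → ∀ J ⊆ range m, (∀ j ∈ J, Fre a κ t g ((T a (κ * t))^[j] x)) →
      ∑ j ∈ J, Lam S (fm g ((T a (κ * t))^[j] x) t) ≤ 3 * ht x t + C := by
  classical
  have ha0 : a ≠ 0 := by rintro rfl; simp at ha
  have key : ∀ (U J : Finset ℕ), ∃ C : ℝ, 0 ≤ C ∧
      ((∀ i ∈ J, ∀ k ∈ J, i ≠ k →
        ¬ Associated ((aff g (2 ^ i) (a ^ oc U 0 i) (kc a κ U 0 i)).map (Int.castRingHom ℚ))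
          ((aff g (2 ^ k) (a ^ oc U 0 k) (kc a κ U 0 k)).map (Int.castRingHom ℚ))) →
        ∀ x t : ℤ, IsCoprime x t → t ≠ 0 →
          ∑ j ∈ J, Lam S (fm (aff g (2 ^ j) (a ^ oc U 0 j) (kc a κ U 0 j)) x t) ≤
          3 * ht x t + C) := by
    intro U J
    by_cases h : (∀ i ∈ J, ∀ k ∈ J, i ≠ k →
        ¬ Associated ((aff g (2 ^ i) (a ^ oc U 0 i) (kc a κ U 0 i)).map (Int.castRingHom ℚ))
          ((aff g (2 ^ k) (a ^ oc U 0 k) (kc a κ U 0 k)).map (Int.castRingHom ℚ)))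
    · obtain ⟨C, hC, h1⟩ := fam hS J (fun j => aff g (2 ^ j) (a ^ oc U 0 j) (kc a κ U 0 j))
        (fun j _ => aff_irr hg (by positivity) (pow_ne_zero _ ha0) _) h
      exact ⟨C, hC, fun _ => h1⟩
    · exact ⟨0, le_rfl, fun h' => absurd h' h⟩
  choose C hC0 hC using key
  refine ⟨∑ U ∈ (range m).powerset, ∑ J ∈ (range m).powerset, C U J,
    sum_nonneg fun U _ => sum_nonneg fun J _ => hC0 _ J, fun t hκ x hxt J hJ hfre => ?_⟩
  have ht0 : t ≠ 0 := by rintro rfl; simp at hκ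
  set U := (range m).filter fun s => (T a (κ * t))^[s] x % 2 ≠ 0 with hU
  have hUm : ∀ s < m, (s ∈ U ↔ (T a (κ * t))^[s] x % 2 ≠ 0) := by
    intro s hs
    rw [hU, mem_filter, mem_range]
    exact ⟨fun h => h.2, fun h => ⟨hs, h⟩⟩
  have hrel := seq_rel ha hκ x U m hUm
  -- the condition
  have hcond : ∀ i ∈ J, ∀ k ∈ J, i < k →
      ¬ Associated ((aff g (2 ^ i) (a ^ oc U 0 i) (kc a κ U 0 i)).map (Int.castRingHom ℚ))
          ((aff g (2 ^ k) (a ^ oc U 0 k) (kc a κ U 0 k)).map (Int.castRingHom ℚ)) := by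
    intro i hi k hk hik hass
    obtain ⟨l, rfl⟩ := Nat.exists_eq_add_of_le hik.le
    have hl1 : 1 ≤ l := by omega
    have hkm := mem_range.1 (hJ hk)
    obtain ⟨r, hr0, hr⟩ := not_assoc hg ha κ U hl1 hass
    obtain ⟨e1, e2⟩ := hrel i l (by omega)
    refine hfre i hi l hl1 r hr0 ?_
    rw [← e2, ← Function.iterate_add_apply, add_comm l i]
    have e3 : (2 : ℚ) ^ l * ((T a (κ * t))^[i + l] x : ℤ) =
        a ^ oc U i l * ((T a (κ * t))^[i] x : ℤ) + kc a κ U i l * t := by exact_mod_cast e1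
    linear_combination e3 - t * hr
  have h1 := hC U J (by
    intro i hi k hk hik
    rcases Nat.lt_or_gt_of_ne hik with hlt | hlt
    · exact hcond i hi k hk hlt
    · intro h
      exact hcond k hk i hi hlt h.symm) x t hxt ht0
  have h2 : ∑ j ∈ J, Lam S (fm g ((T a (κ * t))^[j] x) t) ≤
      ∑ j ∈ J, Lam S (fm (aff g (2 ^ j) (a ^ oc U 0 j) (kc a κ U 0 j)) x t) := by
    refine sum_le_sum fun j hj => ?_
    have hjm := mem_range.1 (hJ hj)
    have e1 := (hrel 0 j (by omega)).1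
    rw [zero_add, Function.iterate_zero, id] at e1
    rw [aff_fm g (by positivity) (pow_ne_zero _ ha0) ht0 e1]
    exact Lam_le_mul hS (by positivity) _
  have h3 : C U J ≤ ∑ J ∈ (range m).powerset, C U J :=
    single_le_sum (fun J _ => hC0 _ J) (mem_powerset.2 hJ)
  have h4 : ∑ J ∈ (range m).powerset, C U J ≤
      ∑ U ∈ (range m).powerset, ∑ J ∈ (range m).powerset, C U J :=
    single_le_sum (f := fun U : Finset ℕ => ∑ J ∈ (range m).powerset, C U J)
      (fun U _ => sum_nonneg fun J _ => hC0 _ J) (mem_powerset.2 (filter_subset _ _))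
  linarith

end Pool.Agent.V5helper76.SPG
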