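import Mathlib
import Pool.Agent.V5helper76.SPG.Window
import Pool.Agent.V5helper76.SP.Main

/-!
# `S`-parts along trajectories of `x ↦ x / 2`, `(a x + κ t) / 2`, uniformly in `t`
-/

set_option autoImplicit false

namespace Pool.Agent.V5helper76.SPG

open Polynomial Finset
open Pool.Agent.V5helper5.AB (T od two_T)
open Pool.Agent.V5helper76.SP (Lam Lam_nonneg Lam_zero Lam_mul Lam_mul_le Lam_le_mul Lam_prod Lam_norm
  windows)

variable {S : Finset ℕ} {a κ : ℤ}

/-- admissible pairs -/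
def Adm (a κ t x : ℤ) : Prop := (κ * t) % 2 = 1 ∧ IsCoprime a t ∧ IsCoprime x t

lemma Adm.t0 {t x : ℤ} (h : Adm a κ t x) : t ≠ 0 := by
  rintro rfl
  have := h.1
  simp at this

lemma Adm.iter (ha : a % 2 = 1) {t x : ℤ} (h : Adm a κ t x) (i : ℕ) :
    Adm a κ t ((T a (κ * t))^[i] x) := ⟨h.1, h.2.1, cop_iter ha h.1 h.2.1 h.2.2 i⟩

/-- the window property -/
def Win (S : Finset ℕ) (a κ : ℤ) (f : ℤ[X]) : Prop :=
  ∀ ε : ℝ, 0 < ε → ∃ m0 : ℕ, ∀ m : ℕ, m0 ≤ m → ∃ C : ℝ, 0 ≤ C ∧ ∀ t x : ℤ, Adm a κ t x →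
    ∀ J ⊆ range m, (∀ j ∈ J, Fre a κ t f ((T a (κ * t))^[j] x)) →
      ∑ j ∈ J, Lam S (fm f ((T a (κ * t))^[j] x) t) ≤ ε * m * ht x t + C

lemma win_irr (hS : ∀ p ∈ S, p.Prime) (ha : a % 2 = 1) {g : ℤ[X]}
    (hg : Irreducible (g.map (Int.castRingHom ℚ))) : Win S a κ g := by
  intro ε hε
  obtain ⟨m0, hm0⟩ := exists_nat_ge (3 / ε)
  refine ⟨m0, fun m hm => ?_⟩
  obtain ⟨C, hC, h⟩ := irr_window hS hg ha κ m
  refine ⟨C, hC, fun t x hadm J hJ hfre => (h t hadm.1 x hadm.2.2 J hJ hfre).trans ?_⟩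
  have h1 : 3 ≤ ε * m := by
    have h2 : 3 / ε ≤ m := hm0.trans (by exact_mod_cast hm)
    rw [div_le_iff₀ hε] at h2
    linarith
  have h2 : 0 ≤ ht x t := ht_nonneg hadm.t0
  nlinarith

lemma win_C (hS : ∀ p ∈ S, p.Prime) (c : ℤ) : Win S a κ (C c) := by
  intro ε hε
  refine ⟨0, fun m _ => ⟨m * Lam S c, mul_nonneg (Nat.cast_nonneg _) (Lam_nonneg hS _),
    fun t x hadm J hJ _ => ?_⟩⟩
  have h1 : ∑ j ∈ J, Lam S (fm (C c : ℤ[X]) ((T a (κ * t))^[j] x) t) = J.card * Lam S c := by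
    simp only [fm_C, sum_const, nsmul_eq_mul]
  rw [h1]
  have h2 : (J.card : ℝ) ≤ m := by
    have := card_le_card hJ
    rw [card_range] at this
    exact_mod_cast this
  have h3 := mul_le_mul_of_nonneg_right h2 (Lam_nonneg hS c)
  have h4 : 0 ≤ ht x t := ht_nonneg hadm.t0
  have : 0 ≤ ε * m * ht x t := by positivity
  linarith

lemma fre_mul {t : ℤ} {f g : ℤ[X]} {x : ℤ} (h : Fre a κ t (f * g) x) :
    Fre a κ t f x ∧ Fre a κ t g x := by
  constructor
  · intro j hj r hr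
    exact h j hj r (by rw [map_mul, hr, zero_mul])
  · intro j hj r hr
    exact h j hj r (by rw [map_mul, hr, mul_zero])

lemma win_mul (hS : ∀ p ∈ S, p.Prime) {f g : ℤ[X]} (hf0 : f ≠ 0) (hg0 : g ≠ 0)
    (hf : Win S a κ f) (hg : Win S a κ g) : Win S a κ (f * g) := by
  intro ε hε
  obtain ⟨m1, h1⟩ := hf (ε / 2) (by positivity)
  obtain ⟨m2, h2⟩ := hg (ε / 2) (by positivity)
  refine ⟨max m1 m2, fun m hm => ?_⟩
  obtain ⟨C1, hC1, k1⟩ := h1 m (le_trans (le_max_left _ _) hm)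
  obtain ⟨C2, hC2, k2⟩ := h2 m (le_trans (le_max_right _ _) hm)
  refine ⟨C1 + C2, by positivity, fun t x hadm J hJ hfre => ?_⟩
  have e1 := k1 t x hadm J hJ (fun j hj => (fre_mul (hfre j hj)).1)
  have e2 := k2 t x hadm J hJ (fun j hj => (fre_mul (hfre j hj)).2)
  have e3 : ∑ j ∈ J, Lam S (fm (f * g) ((T a (κ * t))^[j] x) t) ≤
      ∑ j ∈ J, Lam S (fm f ((T a (κ * t))^[j] x) t) +
        ∑ j ∈ J, Lam S (fm g ((T a (κ * t))^[j] x) t) := by
    rw [← sum_add_distrib]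
    refine sum_le_sum fun j _ => ?_
    rw [fm_mul hf0 hg0 _ hadm.t0]
    exact Lam_mul_le hS _ _
  linarith

/-- the window property holds for all polynomials -/
theorem win (hS : ∀ p ∈ S, p.Prime) (ha : a % 2 = 1) (f : ℤ[X]) : f ≠ 0 → Win S a κ f := by
  induction f using UniqueFactorizationMonoid.induction_on_prime with
  | h₁ => exact fun h => absurd rfl h
  | h₂ f hf =>
    intro _
    obtain ⟨c, _, rfl⟩ := Polynomial.isUnit_iff.1 hf
    exact win_C hS c
  | h₃ f p hf0 hp ih =>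
    intro _
    refine win_mul hS hp.ne_zero hf0 ?_ (ih hf0)
    rcases eq_or_ne p.natDegree 0 with hd | hd
    · obtain ⟨c, rfl⟩ := natDegree_eq_zero.1 hd
      exact win_C hS c
    · have hprim := hp.irreducible.isPrimitive hd
      exact win_irr hS ha ((IsPrimitive.Int.irreducible_iff_irreducible_map_cast hprim).1 hp.irreducible)

/-! ### trajectories -/

/-- the loss of height in one step -/
noncomputable def cst (κ : ℤ) : ℝ := Real.log (2 + |(κ : ℝ)|)

lemma cst_nonneg : 0 ≤ cst κ := Real.log_nonneg (by linarith [abs_nonneg (κ : ℝ)])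

lemma ht_T_ge (ha : a % 2 = 1) {t x : ℤ} (h : Adm a κ t x) : ht x t ≤ ht (T a (κ * t) x) t + cst κ := by
  have h2 := two_T ha h.1 x
  have ht0 := h.t0
  have ha0 : a ≠ 0 := by rintro rfl; simp at ha
  set y := T a (κ * t) x with hy
  set M := max |(y : ℝ)| |(t : ℝ)| with hM
  have hM1 : 1 ≤ M := max_ge ht0
  have hκ := abs_nonneg (κ : ℝ)
  have h3 : max |(x : ℝ)| |(t : ℝ)| ≤ (2 + |(κ : ℝ)|) * M := by
    have h4 : |(t : ℝ)| ≤ M := le_max_right _ _
    have h5 : |(y : ℝ)| ≤ M := le_max_left _ _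
    apply max_le
    · split_ifs at h2 with h1
      · have h6 : (x : ℝ) = 2 * y := by exact_mod_cast h2.symm
        rw [h6, abs_mul]
        norm_num
        nlinarith
      · have h6 : (a : ℝ) * x = 2 * y - κ * t := by
          have : (2 : ℝ) * y = a * x + κ * t := by exact_mod_cast h2
          linarith
        have h7 : |(x : ℝ)| ≤ |(a : ℝ) * x| := by
          rw [abs_mul]
          have : (1 : ℝ) ≤ |(a : ℝ)| := by exact_mod_cast Int.one_le_abs ha0
          nlinarith [abs_nonneg (x : ℝ)]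
        rw [h6] at h7
        have h8 : |(2 : ℝ) * y - κ * t| ≤ 2 * |(y : ℝ)| + |(κ : ℝ)| * |(t : ℝ)| := by
          refine (abs_sub _ _).trans ?_
          rw [abs_mul, abs_mul]
          norm_num
        have h9 : |(κ : ℝ)| * |(t : ℝ)| ≤ |(κ : ℝ)| * M := mul_le_mul_of_nonneg_left h4 hκ
        linarith
    · nlinarith
  unfold ht cst
  rw [← hM, add_comm, ← Real.log_mul (by positivity) (by positivity)]
  exact Real.log_le_log (by linarith [max_ge (x := x) ht0]) h3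

lemma ht_iter_ge (ha : a % 2 = 1) {t x : ℤ} (h : Adm a κ t x) (i : ℕ) :
    ht x t - i * cst κ ≤ ht ((T a (κ * t))^[i] x) t := by
  induction i with
  | zero => simp
  | succ i ih =>
    rw [Function.iterate_succ_apply']
    have := ht_T_ge ha (h.iter ha i)
    push_cast
    linarith

open Classical in
/-- the logarithm of the `S`-part of `f y` for the elements in question -/
noncomputable def phi (S : Finset ℕ) (a κ t : ℤ) (f : ℤ[X]) (y : ℤ) : ℝ :=
  if Fre a κ t f y then Lam S (fm f y t) else 0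

lemma phi_nonneg (hS : ∀ p ∈ S, p.Prime) (t : ℤ) (f : ℤ[X]) (y : ℤ) : 0 ≤ phi S a κ t f y := by
  unfold phi
  split_ifs
  · exact Lam_nonneg hS _
  · exact le_rfl

lemma win_phi {f : ℤ[X]} (hf : Win S a κ f) {ε : ℝ} (hε : 0 < ε) :
    ∃ m : ℕ, 1 ≤ m ∧ ∃ C : ℝ, 0 ≤ C ∧ ∀ t x : ℤ, Adm a κ t x →
      ∑ j ∈ range m, phi S a κ t f ((T a (κ * t))^[j] x) ≤ ε * m * ht x t + C := by
  classical
  obtain ⟨m0, h⟩ := hf ε hε
  obtain ⟨C, hC, h1⟩ := h (m0 + 1) (by omega)
  refine ⟨m0 + 1, by omega, C, hC, fun t x hadm => ?_⟩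
  have h2 := h1 t x hadm ((range (m0 + 1)).filter fun j => Fre a κ t f ((T a (κ * t))^[j] x))
    (filter_subset _ _) (fun j hj => (mem_filter.1 hj).2)
  rw [sum_filter] at h2
  unfold phi
  exact h2

/-- sums along trajectories -/
theorem traj_sum (hS : ∀ p ∈ S, p.Prime) (ha : a % 2 = 1) (κ : ℤ) {f : ℤ[X]} (hf : f ≠ 0) {ε : ℝ}
    (hε : 0 < ε) : ∃ K : ℝ, 0 ≤ K ∧ ∀ (t x : ℤ) (n : ℕ), Adm a κ t x →
      ∑ i ∈ range n, phi S a κ t f ((T a (κ * t))^[i] x) ≤
        ε * ∑ i ∈ range n, ht ((T a (κ * t))^[i] x) t + K * (ht x t + n) := by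
  obtain ⟨m, hm, C, hC, h⟩ := win_phi (win (κ := κ) hS ha f hf) hε
  refine ⟨2 * C + ε * m, by positivity, fun t x n hadm => ?_⟩
  have hmR : (1 : ℝ) ≤ m := by exact_mod_cast hm
  have hL : 0 ≤ ht x t := ht_nonneg hadm.t0
  rcases Nat.eq_zero_or_pos n with rfl | hn
  · simp
    positivity
  have hnR : (1 : ℝ) ≤ n := by exact_mod_cast hn
  have h1 := windows (fun i => phi S a κ t f ((T a (κ * t))^[i] x)) (fun i => phi_nonneg hS t f _) m n
  have h2 : ∑ i ∈ range n, ∑ j ∈ range m, phi S a κ t f ((T a (κ * t))^[i + j] x) ≤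
      ∑ i ∈ range n, (ε * m * ht ((T a (κ * t))^[i] x) t + C) := by
    refine sum_le_sum fun i _ => ?_
    have h3 := h t ((T a (κ * t))^[i] x) (hadm.iter ha i)
    have h4 : ∑ j ∈ range m, phi S a κ t f ((T a (κ * t))^[i + j] x) =
        ∑ j ∈ range m, phi S a κ t f ((T a (κ * t))^[j] ((T a (κ * t))^[i] x)) := by
      refine sum_congr rfl fun j _ => ?_
      rw [← Function.iterate_add_apply, add_comm]
    rw [h4]; exact h3
  rw [sum_add_distrib, ← mul_sum, sum_const, card_range, nsmul_eq_mul] at h2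
  have h5 := h t x hadm
  set A := ∑ i ∈ range n, phi S a κ t f ((T a (κ * t))^[i] x)
  set B := ∑ i ∈ range n, ht ((T a (κ * t))^[i] x) t
  set W := ∑ i ∈ range m, phi S a κ t f ((T a (κ * t))^[i] x)
  have hm0 : (0 : ℝ) < m := by linarith
  have h6 : m * A ≤ m * (ε * B + n * C + (ε * m * ht x t + C)) := by
    have h7 : m * W ≤ m * (ε * m * ht x t + C) := mul_le_mul_of_nonneg_left h5 hm0.le
    have h8 : (n : ℝ) * C ≤ m * (n * C) := by
      have : 0 ≤ (n : ℝ) * C := by positivity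
      nlinarith
    nlinarith
  have h7 := le_of_mul_le_mul_left h6 hm0
  have h8 : 0 ≤ ε * m * n := by positivity
  have h9 : 0 ≤ C * ht x t := by positivity
  have h10 : C ≤ C * n := by nlinarith
  nlinarith

/-- the `S`-part of `f y` is at least the `δ`-th power of the height -/
def Bad (S : Finset ℕ) (a κ t : ℤ) (f : ℤ[X]) (δ : ℝ) (y : ℤ) : Prop :=
  Fre a κ t f y ∧ δ * ht y t ≤ Lam S (fm f y t)

open Classical in
/-- the indicator function -/
noncomputable def ind (S : Finset ℕ) (a κ t : ℤ) (f : ℤ[X]) (δ : ℝ) (y : ℤ) : ℝ :=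
  if Bad S a κ t f δ y then 1 else 0

lemma ind_nonneg (t : ℤ) (f : ℤ[X]) (δ : ℝ) (y : ℤ) : 0 ≤ ind S a κ t f δ y := by
  unfold ind; split_ifs <;> norm_num

lemma ind_le_one (t : ℤ) (f : ℤ[X]) (δ : ℝ) (y : ℤ) : ind S a κ t f δ y ≤ 1 := by
  unfold ind; split_ifs <;> norm_num

lemma ind_mul_le (hS : ∀ p ∈ S, p.Prime) (t : ℤ) (f : ℤ[X]) (δ : ℝ) (y : ℤ) :
    ind S a κ t f δ y * (δ * ht y t) ≤ phi S a κ t f y := by
  unfold ind phi
  split_ifs with h1 h2 h2
  · rw [one_mul]; exact h1.2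
  · exact absurd h1.1 h2
  · rw [zero_mul]; exact Lam_nonneg hS _
  · rw [zero_mul]

/-- few small terms -/
lemma few_small {b x : ℤ} {n : ℕ} (hinj : Set.InjOn (fun i => (T a b)^[i] x) (range n : Finset ℕ))
    (B : ℕ) : ((range n).filter fun i => |(T a b)^[i] x| ≤ (B : ℤ)).card ≤ 2 * B + 1 := by
  have h1 : ((range n).filter fun i => |(T a b)^[i] x| ≤ (B : ℤ)).card ≤ (Icc (-(B : ℤ)) B).card := by
    apply Finset.card_le_card_of_injOn (fun i => (T a b)^[i] x)
    · intro i hi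
      have h2 := (mem_filter.1 (mem_coe.1 hi)).2
      exact mem_coe.2 (mem_Icc.2 (abs_le.1 h2))
    · intro t ht u hu h
      exact hinj (mem_coe.2 (mem_filter.1 (mem_coe.1 ht)).1) (mem_coe.2 (mem_filter.1 (mem_coe.1 hu)).1) h
  rw [Int.card_Icc] at h1
  omega

/-- counting along trajectories -/
theorem traj_count (hS : ∀ p ∈ S, p.Prime) (ha : a % 2 = 1) (κ : ℤ) {f : ℤ[X]} (hf : f ≠ 0) {ε : ℝ}
    (hε : 0 < ε) : ∃ K : ℝ, 0 ≤ K ∧ ∀ (t x : ℤ) (n : ℕ), Adm a κ t x →
      Set.InjOn (fun i => (T a (κ * t))^[i] x) (range n : Finset ℕ) →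
      ∑ i ∈ range n, ind S a κ t f ε ((T a (κ * t))^[i] x) ≤ ε * n + K := by
  obtain ⟨m, hm, C, hC, h⟩ := win_phi (win (κ := κ) hS ha f hf) (ε := ε ^ 2 / 8) (by positivity)
  have hmR : (1 : ℝ) ≤ m := by exact_mod_cast hm
  have hm0 : (0 : ℝ) < m := by linarith
  -- the threshold
  have hcst : 0 ≤ cst κ := cst_nonneg
  set L : ℝ := 2 * m * cst κ + C / (ε ^ 2 / 8 * m) + 1 with hL
  have hL1 : 0 ≤ C / (ε ^ 2 / 8 * m) := by positivity
  have hL2 : 0 ≤ 2 * m * cst κ := by positivity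
  obtain ⟨B, hB⟩ := exists_nat_ge (Real.exp L)
  refine ⟨2 * B + 1 + m, by positivity, fun t x n hadm hinj => ?_⟩
  have h1 := windows (fun i => ind S a κ t f ε ((T a (κ * t))^[i] x)) (fun i => ind_nonneg t f ε _) m n
  have h2 : ∑ i ∈ range m, ind S a κ t f ε ((T a (κ * t))^[i] x) ≤ m := by
    calc ∑ i ∈ range m, ind S a κ t f ε ((T a (κ * t))^[i] x) ≤ ∑ i ∈ range m, (1 : ℝ) :=
          sum_le_sum fun i _ => ind_le_one t f ε _
      _ = m := by simp
  -- a window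
  have h3 : ∀ i ∈ range n, ∑ j ∈ range m, ind S a κ t f ε ((T a (κ * t))^[i + j] x) ≤
      ε / 2 * m + (if |(T a (κ * t))^[i] x| ≤ (B : ℤ) then (m : ℝ) else 0) := by
    intro i _
    have hadmi := hadm.iter ha i
    set y := (T a (κ * t))^[i] x with hy
    have e : ∀ j, (T a (κ * t))^[i + j] x = (T a (κ * t))^[j] y := by
      intro j
      rw [hy, ← Function.iterate_add_apply, add_comm]
    simp only [e]
    split_ifs with hs
    · have : ∑ j ∈ range m, ind S a κ t f ε ((T a (κ * t))^[j] y) ≤ m := by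
        calc ∑ i ∈ range m, ind S a κ t f ε ((T a (κ * t))^[i] y) ≤ ∑ i ∈ range m, (1 : ℝ) :=
              sum_le_sum fun i _ => ind_le_one t f ε _
          _ = m := by simp
      have h4 : 0 ≤ ε / 2 * m := by positivity
      linarith
    · push Not at hs
      rw [add_zero]
      have hyB : Real.exp L < |(y : ℝ)| := lt_of_le_of_lt hB (by exact_mod_cast hs)
      have hyL : L < ht y t := by
        rw [← Real.log_exp L]
        exact Real.log_lt_log (Real.exp_pos _) (hyB.trans_le (le_max_left _ _))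
      set ℓ := ht y t with hℓ
      have hℓ0 : 0 < ℓ := by linarith
      have h5 := h t y hadmi
      rw [← hℓ] at h5
      have h6 : (∑ j ∈ range m, ind S a κ t f ε ((T a (κ * t))^[j] y)) * (ε * (ℓ / 2)) ≤
          ∑ j ∈ range m, phi S a κ t f ((T a (κ * t))^[j] y) := by
        rw [sum_mul]
        refine sum_le_sum fun j hj => ?_
        refine le_trans ?_ (ind_mul_le hS t f ε ((T a (κ * t))^[j] y))
        refine mul_le_mul_of_nonneg_left ?_ (ind_nonneg t f ε _)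
        refine mul_le_mul_of_nonneg_left ?_ hε.le
        have h7 := ht_iter_ge ha hadmi j
        rw [← hℓ] at h7
        have h8 : (j : ℝ) ≤ m := by exact_mod_cast (mem_range.1 hj).le
        have h9 : (j : ℝ) * cst κ ≤ m * cst κ := mul_le_mul_of_nonneg_right h8 hcst
        linarith
      have h7 : C ≤ ε ^ 2 / 8 * m * ℓ := by
        have h8 : C / (ε ^ 2 / 8 * m) ≤ ℓ := by linarith
        rw [div_le_iff₀ (by positivity)] at h8
        linarith
      have h8 : (∑ j ∈ range m, ind S a κ t f ε ((T a (κ * t))^[j] y)) * (ε * (ℓ / 2)) ≤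
          (ε / 2 * m) * (ε * (ℓ / 2)) := by
        refine (h6.trans h5).trans ?_
        nlinarith
      exact le_of_mul_le_mul_right h8 (by positivity)
  have h4 := sum_le_sum h3
  rw [sum_add_distrib, sum_const, card_range, nsmul_eq_mul, ← sum_filter, sum_const,
    nsmul_eq_mul] at h4
  have h5 : ((((range n).filter fun i => |(T a (κ * t))^[i] x| ≤ (B : ℤ)).card : ℕ) : ℝ) ≤
      2 * B + 1 := by
    exact_mod_cast few_small hinj B
  set A := ∑ i ∈ range n, ind S a κ t f ε ((T a (κ * t))^[i] x)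
  have h6 : (m : ℝ) * A ≤ m * (ε / 2 * n + (2 * B + 1) + m) := by
    have h7 := mul_le_mul_of_nonneg_right h5 hm0.le
    have h8 := mul_le_mul_of_nonneg_left h2 hm0.le
    calc (m : ℝ) * A ≤ _ := h1
      _ ≤ n * (ε / 2 * m) + (2 * B + 1) * m + m * m := by
          gcongr
          exact h4.trans (by linarith)
      _ = _ := by ring
  have h7 := le_of_mul_le_mul_left h6 hm0
  have h8 : 0 ≤ ε / 2 * n := by positivity
  linarith

end Pool.Agent.V5helper76.SPG
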