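import Mathlib
import Pool.Agent.V5helper76.SPG.Main

/-!
# `S`-parts in cycles of `x ↦ x / 2`, `(a x + κ t) / 2`, uniformly in `t`
-/

set_option autoImplicit false

namespace Pool.Agent.V5helper76.SPG

open Polynomial Finset
open Pool.Agent.V5helper5.AB (T od two_T IsCyc cyc_data abs_le_of_period finite_small zero_iter)
open Pool.Agent.V5helper76.SP (Lam Lam_nonneg)

variable {S : Finset ℕ} {a κ : ℤ}

lemma sum_cyc {b : ℤ} {Z : Finset ℤ} {x : ℤ} {p : ℕ}
    (hinj : Set.InjOn (fun i => (T a b)^[i] x) (range p : Finset ℕ))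
    (hZ : Z = (range p).image fun i => (T a b)^[i] x) (F : ℤ → ℝ) :
    ∑ y ∈ Z, F y = ∑ i ∈ range p, F ((T a b)^[i] x) := by
  rw [hZ, sum_image hinj]

lemma sum_mul_period {b x : ℤ} {p : ℕ} (hx : (T a b)^[p] x = x) (F : ℤ → ℝ) (N : ℕ) :
    ∑ i ∈ range (p * N), F ((T a b)^[i] x) = N * ∑ i ∈ range p, F ((T a b)^[i] x) := by
  induction N with
  | zero => simp
  | succ N ih =>
    rw [mul_add, mul_one, sum_range_add, ih]
    have h1 : ∀ i, (T a b)^[p * N + i] x = (T a b)^[i] x := by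
      intro i
      rw [add_comm, Function.iterate_add_apply]
      congr 1
      rw [Function.iterate_mul]
      exact Function.iterate_fixed hx N
    simp only [h1]
    push_cast
    ring

/-- the average height is large on long cycles -/
lemma large_mean (A : ℝ) : ∃ p0 : ℕ, ∀ (a b t x : ℤ) (p : ℕ), p0 ≤ p → t ≠ 0 →
    Set.InjOn (fun i => (T a b)^[i] x) (range p : Finset ℕ) →
      A * p ≤ ∑ i ∈ range p, ht ((T a b)^[i] x) t := by
  obtain ⟨M, hM⟩ := exists_nat_ge (Real.exp (2 * |A|))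
  refine ⟨2 * (2 * M + 1), fun a b t x p hp ht0 hinj => ?_⟩
  have h1 := few_small hinj M
  have hA : A ≤ |A| := le_abs_self A
  have hA0 : 0 ≤ |A| := abs_nonneg A
  have h2 : ∀ i ∈ range p, 2 * |A| * (1 - (if |(T a b)^[i] x| ≤ (M : ℤ) then (1 : ℝ) else 0)) ≤
      ht ((T a b)^[i] x) t := by
    intro i _
    split_ifs with hs
    · rw [sub_self, mul_zero]; exact ht_nonneg ht0
    · push Not at hs
      rw [sub_zero, mul_one, ← Real.log_exp (2 * |A|)]
      apply Real.log_le_log (Real.exp_pos _)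
      refine hM.trans (le_trans ?_ (le_max_left _ _))
      exact_mod_cast hs.le
  have h3 := sum_le_sum h2
  rw [← mul_sum, sum_sub_distrib, sum_const, card_range, nsmul_eq_mul, mul_one, ← sum_filter,
    sum_const, nsmul_eq_mul, mul_one] at h3
  refine le_trans ?_ h3
  have h4 : ((((range p).filter fun i => |(T a b)^[i] x| ≤ (M : ℤ)).card : ℕ) : ℝ) ≤ 2 * M + 1 := by
    exact_mod_cast h1
  have h5 : (2 * (2 * (M : ℝ) + 1)) ≤ p := by exact_mod_cast hp
  have h6 : (0 : ℝ) ≤ p := Nat.cast_nonneg p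
  have h7 : |A| * p ≤ 2 * |A| * (p - (((range p).filter fun i => |(T a b)^[i] x| ≤ (M : ℤ)).card : ℕ)) := by
    nlinarith
  nlinarith

/-- the inequality for one cycle -/
lemma cyc_bound (hS : ∀ p ∈ S, p.Prime) (ha : a % 2 = 1) (κ : ℤ) {f : ℤ[X]} (hf : f ≠ 0) {ε : ℝ}
    (hε : 0 < ε) : ∃ K : ℝ, 0 ≤ K ∧ ∀ (t x : ℤ) (p : ℕ), Adm a κ t x → (T a (κ * t))^[p] x = x →
      ∑ i ∈ range p, phi S a κ t f ((T a (κ * t))^[i] x) ≤
        ε * ∑ i ∈ range p, ht ((T a (κ * t))^[i] x) t + K * p := by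
  obtain ⟨K, hK, h⟩ := traj_sum hS ha κ hf hε
  refine ⟨K, hK, fun t x p hadm hx => ?_⟩
  set A := ∑ i ∈ range p, phi S a κ t f ((T a (κ * t))^[i] x) with hA
  set B := ∑ i ∈ range p, ht ((T a (κ * t))^[i] x) t with hB
  have hL : 0 ≤ ht x t := ht_nonneg hadm.t0
  by_contra hcon2
  push Not at hcon2
  set D := A - (ε * B + K * p) with hD
  have hD0 : 0 < D := by linarith
  obtain ⟨N, hN⟩ := exists_nat_gt (K * ht x t / D)
  have h4 := h t x (p * N) hadm
  rw [sum_mul_period hx (fun y => phi S a κ t f y) N, sum_mul_period hx (fun y => ht y t) N,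
    ← hA, ← hB] at h4
  rw [div_lt_iff₀ hD0] at hN
  push_cast at h4
  have h5 : (N : ℝ) * D ≤ K * ht x t := by
    rw [hD]; nlinarith
  linarith

/-- primitive cycles: all elements are coprime to `t` -/
def Prim (a κ : ℤ) (q : ℤ × Finset ℤ) : Prop :=
  (κ * q.1) % 2 = 1 ∧ IsCoprime a q.1 ∧ IsCyc a (κ * q.1) q.2 ∧ ∀ y ∈ q.2, IsCoprime y q.1

lemma Prim.adm {q : ℤ × Finset ℤ} (h : Prim a κ q) {y : ℤ} (hy : y ∈ q.2) : Adm a κ q.1 y :=
  ⟨h.1, h.2.1, h.2.2.2 y hy⟩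

/-- finitely many short primitive cycles -/
lemma prim_small (ha : a % 2 = 1) (ha3 : 3 ≤ |a|) (κ : ℤ) (N : ℕ) :
    {q : ℤ × Finset ℤ | Prim a κ q ∧ q.2.card ≤ N}.Finite := by
  classical
  set g := |a| with hg
  set B : ℤ := 2 * g ^ N with hB
  set D : ℤ := |κ| * B * g ^ N with hD
  apply Set.Finite.subset
    (Finset.finite_toSet ((Finset.Icc (-B) B) ×ˢ (Finset.Icc (-D) D).powerset))
  rintro ⟨t, Z⟩ ⟨hP, hN⟩
  obtain ⟨hκ, hat, hZ, hco⟩ := hP
  simp only at hκ hat hZ hco hN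
  obtain ⟨x, hp1, hx, hinj, himg, hxb⟩ := cyc_data ha hκ hg.symm ha3 hZ
  set p := Z.card with hp
  have hxZ : x ∈ Z := by
    rw [himg]; exact Finset.mem_image.2 ⟨0, Finset.mem_range.2 hp1, rfl⟩
  have ht0 : t ≠ 0 := by rintro rfl; simp at hκ
  have hgN : g ^ p ≤ g ^ N := pow_le_pow_right₀ (by omega) hN
  have hg0 : 0 < g ^ N := by positivity
  -- `t` is bounded
  have htB : |t| ≤ B := by
    set U := (range p).filter fun s => (T a (κ * t))^[s] x % 2 ≠ 0 with hU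
    have hUm : ∀ s < p, (s ∈ U ↔ (T a (κ * t))^[s] x % 2 ≠ 0) := by
      intro s hs
      rw [hU, mem_filter, mem_range]
      exact ⟨fun h => h.2, fun h => ⟨hs, h⟩⟩
    have h1 := (seq_rel ha hκ x U p hUm 0 p (by omega)).1
    rw [zero_add, hx, Function.iterate_zero, id] at h1
    have h2 : t ∣ ((2 : ℤ) ^ p - a ^ oc U 0 p) * x := ⟨kc a κ U 0 p, by linarith⟩
    have h3 : t ∣ (2 : ℤ) ^ p - a ^ oc U 0 p := (hco x hxZ).symm.dvd_of_dvd_mul_right h2
    have h4 : (2 : ℤ) ^ p - a ^ oc U 0 p ≠ 0 := by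
      intro h
      apply two_pow_ne ha hp1 (o := oc U 0 p)
      have h5 : (2 : ℤ) ^ p = a ^ oc U 0 p := by linarith
      rw [← h5, abs_of_pos (by positivity)]
    have h5 : |t| ≤ |(2 : ℤ) ^ p - a ^ oc U 0 p| :=
      Int.le_of_dvd (abs_pos.2 h4) ((abs_dvd_abs _ _).2 h3)
    have hoc : oc U 0 p ≤ p := by
      have : ∀ l, oc U 0 l ≤ l := by
        intro l
        induction l with
        | zero => simp [oc]
        | succ l ih => rw [oc]; split_ifs <;> omega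
      exact this p
    have h6 : |(2 : ℤ) ^ p - a ^ oc U 0 p| ≤ 2 ^ p + g ^ p := by
      refine (abs_sub _ _).trans ?_
      rw [abs_of_pos (show (0 : ℤ) < 2 ^ p by positivity), abs_pow, ← hg]
      have := pow_le_pow_right₀ (show 1 ≤ g by omega) hoc
      linarith
    have h7 : (2 : ℤ) ^ p ≤ g ^ p := pow_le_pow_left₀ (by norm_num) (by omega) p
    rw [hB]; linarith
  rw [Finset.mem_coe, Finset.mem_product]
  refine ⟨Finset.mem_Icc.2 (abs_le.1 htB), Finset.mem_powerset.2 fun y hy => ?_⟩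
  have hper : (T a (κ * t))^[p] y = y := by
    rw [himg] at hy
    obtain ⟨i, _, rfl⟩ := Finset.mem_image.1 hy
    rw [← Function.iterate_add_apply, add_comm, Function.iterate_add_apply, hx]
  have h1 := abs_le_of_period ha hκ hg.symm ha3 hp1 hper
  have h2 : |κ * t| * g ^ p ≤ D := by
    rw [hD, abs_mul]
    have h3 : |κ| * |t| ≤ |κ| * B := mul_le_mul_of_nonneg_left htB (abs_nonneg _)
    have h4 : 0 ≤ |κ| * |t| := by positivity
    have h5 : 0 ≤ g ^ p := by positivity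
    calc |κ| * |t| * g ^ p ≤ |κ| * |t| * g ^ N := mul_le_mul_of_nonneg_left hgN h4
      _ ≤ |κ| * B * g ^ N := mul_le_mul_of_nonneg_right h3 hg0.le
  exact Finset.mem_Icc.2 (abs_le.1 (h1.trans h2))

/-- sums over primitive cycles, uniformly in `t` -/
theorem cyc_sum_unif (hS : ∀ p ∈ S, p.Prime) (ha : a % 2 = 1) (ha3 : 3 ≤ |a|) (κ : ℤ) {f : ℤ[X]}
    (hf : f ≠ 0) {ε : ℝ} (hε : 0 < ε) :
    {q : ℤ × Finset ℤ | Prim a κ q ∧ ε * ∑ y ∈ q.2, ht y q.1 < ∑ y ∈ q.2, phi S a κ q.1 f y}.Finite := by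
  obtain ⟨K, hK, h⟩ := cyc_bound hS ha κ hf (ε := ε / 2) (by positivity)
  obtain ⟨p0, hp0⟩ := large_mean (2 * K / ε)
  apply (prim_small ha ha3 κ (p0 + 1)).subset
  rintro ⟨t, Z⟩ ⟨hP, hlt⟩
  refine ⟨hP, ?_⟩
  by_contra hcon
  push Not at hcon
  have hP' := hP
  obtain ⟨hκ, hat, hZ, hco⟩ := hP
  simp only at hκ hat hZ hco hlt hcon
  obtain ⟨x, hp1, hx, hinj, himg, _⟩ := cyc_data ha hκ rfl ha3 hZ
  set p := Z.card with hp
  have hxZ : x ∈ Z := by
    rw [himg]; exact Finset.mem_image.2 ⟨0, Finset.mem_range.2 hp1, rfl⟩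
  have hadm : Adm a κ t x := hP'.adm (q := (t, Z)) hxZ
  rw [sum_cyc hinj himg, sum_cyc hinj himg] at hlt
  have h1 := hp0 a (κ * t) t x p (by omega) hadm.t0 hinj
  have h2 := h t x p hadm hx
  set A := ∑ i ∈ range p, phi S a κ t f ((T a (κ * t))^[i] x)
  set B := ∑ i ∈ range p, ht ((T a (κ * t))^[i] x) t
  have h3 : K * p ≤ ε / 2 * B := by
    have h6 : ε / 2 * ((2 * K / ε) * p) = K * p := by field_simp
    rw [← h6]
    exact mul_le_mul_of_nonneg_left h1 (by positivity)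
  linarith

/-- counting in primitive cycles, uniformly in `t` -/
theorem cyc_count_unif (hS : ∀ p ∈ S, p.Prime) (ha : a % 2 = 1) (ha3 : 3 ≤ |a|) (κ : ℤ) {f : ℤ[X]}
    (hf : f ≠ 0) {ε : ℝ} (hε : 0 < ε) :
    {q : ℤ × Finset ℤ | Prim a κ q ∧ ε * q.2.card < ∑ y ∈ q.2, ind S a κ q.1 f ε y}.Finite := by
  obtain ⟨K, hK, h⟩ := traj_count hS ha κ hf (ε := ε / 2) (by positivity)
  obtain ⟨p0, hp0⟩ := exists_nat_ge (2 * K / ε)
  apply (prim_small ha ha3 κ (p0 + 1)).subset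
  rintro ⟨t, Z⟩ ⟨hP, hlt⟩
  refine ⟨hP, ?_⟩
  by_contra hcon
  push Not at hcon
  have hP' := hP
  obtain ⟨hκ, hat, hZ, hco⟩ := hP
  simp only at hκ hat hZ hco hlt hcon
  obtain ⟨x, hp1, hx, hinj, himg, _⟩ := cyc_data ha hκ rfl ha3 hZ
  set p := Z.card with hp
  have hxZ : x ∈ Z := by
    rw [himg]; exact Finset.mem_image.2 ⟨0, Finset.mem_range.2 hp1, rfl⟩
  have hadm : Adm a κ t x := hP'.adm (q := (t, Z)) hxZ
  rw [sum_cyc hinj himg] at hlt
  have h1 := h t x p hadm hinj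
  have h2 : ∑ i ∈ range p, ind S a κ t f ε ((T a (κ * t))^[i] x) ≤
      ∑ i ∈ range p, ind S a κ t f (ε / 2) ((T a (κ * t))^[i] x) := by
    refine sum_le_sum fun i _ => ?_
    unfold ind
    split_ifs with h3 h4 h4
    · exact le_rfl
    · exfalso
      apply h4
      refine ⟨h3.1, le_trans ?_ h3.2⟩
      have : 0 ≤ ht ((T a (κ * t))^[i] x) t := ht_nonneg hadm.t0
      nlinarith
    · norm_num
    · exact le_rfl
  have h3 : 2 * K / ε ≤ p := hp0.trans (by exact_mod_cast (by omega : p0 ≤ p))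
  rw [div_le_iff₀ hε] at h3
  linarith

/-! ### fixed maps -/

/-- the sum over the even elements of a cycle -/
lemma even_sum (ha : a % 2 = 1) {b : ℤ} (hb : b % 2 = 1) {x : ℤ} {p : ℕ}
    (hx : (T a b)^[p] x = x) :
    Real.log 2 * ∑ i ∈ range p, (if (T a b)^[i] x % 2 = 0 then ht ((T a b)^[i] x) 1 else 0) ≤
      Real.log (|(a : ℝ)| + |(b : ℝ)|) *
        ∑ i ∈ range p, (if (T a b)^[i] x % 2 = 0 then 0 else ht ((T a b)^[i] x) 1) +
      Real.log (|(a : ℝ)| + |(b : ℝ)|) ^ 2 * p := by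
  have ha0 : a ≠ 0 := by rintro rfl; simp at ha
  have hb0 : b ≠ 0 := by rintro rfl; simp at hb
  have haR : (1 : ℝ) ≤ |(a : ℝ)| := by exact_mod_cast Int.one_le_abs ha0
  have hbR : (1 : ℝ) ≤ |(b : ℝ)| := by exact_mod_cast Int.one_le_abs hb0
  have hlog2 : 0 < Real.log 2 := Real.log_pos (by norm_num)
  set c := Real.log (|(a : ℝ)| + |(b : ℝ)|) with hc
  have hc2 : Real.log 2 ≤ c := Real.log_le_log (by norm_num) (by linarith)
  set ℓ : ℕ → ℝ := fun i => ht ((T a b)^[i] x) 1 with hℓ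
  have h1 : ∑ i ∈ range p, (ℓ (i + 1) ^ 2 - ℓ i ^ 2) = 0 := by
    rw [sum_range_sub (fun i => ℓ i ^ 2) p]
    simp [hℓ, hx]
  have h2 : ∀ i ∈ range p, ℓ (i + 1) ^ 2 - ℓ i ^ 2 ≤
      2 * (c * (if (T a b)^[i] x % 2 = 0 then 0 else ℓ i) -
        Real.log 2 * (if (T a b)^[i] x % 2 = 0 then ℓ i else 0)) + c ^ 2 := by
    intro i _
    have hs : (T a b)^[i + 1] x = T a b ((T a b)^[i] x) := Function.iterate_succ_apply' _ _ _
    have hnn : 0 ≤ ℓ (i + 1) := ht_nonneg one_ne_zero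
    have hnn0 : 0 ≤ ℓ i := ht_nonneg one_ne_zero
    have h3 := two_T ha hb ((T a b)^[i] x)
    rw [← hs] at h3
    have hM1 : 1 ≤ max |((T a b)^[i] x : ℝ)| |((1 : ℤ) : ℝ)| := max_ge one_ne_zero
    have hM2 : 1 ≤ max |((T a b)^[i + 1] x : ℝ)| |((1 : ℤ) : ℝ)| := max_ge one_ne_zero
    split_ifs with hev
    · rw [if_pos hev] at h3
      rcases eq_or_ne ((T a b)^[i + 1] x) 0 with h0 | h0
      · have h4 : (T a b)^[i] x = 0 := by rw [← h3, h0, mul_zero]
        have e1 : ℓ (i + 1) = 0 := by simp [hℓ, h0, ht]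
        have e2 : ℓ i = 0 := by simp [hℓ, h4, ht]
        rw [e1, e2]
        nlinarith
      · have h4 : |((T a b)^[i] x : ℝ)| = 2 * |((T a b)^[i + 1] x : ℝ)| := by
          have : ((T a b)^[i] x : ℝ) = 2 * ((T a b)^[i + 1] x : ℝ) := by exact_mod_cast h3.symm
          rw [this, abs_mul]; norm_num
        have h5 : (1 : ℝ) ≤ |((T a b)^[i + 1] x : ℝ)| := by exact_mod_cast Int.one_le_abs h0
        have h6 : ℓ i = Real.log 2 + ℓ (i + 1) := by
          simp only [hℓ, ht]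
          rw [Int.cast_one, abs_one, max_eq_left h5, max_eq_left (by linarith), h4,
            Real.log_mul (by norm_num) (by linarith)]
        have h7 : ℓ (i + 1) = ℓ i - Real.log 2 := by linarith
        rw [h7]
        nlinarith
    · rw [if_neg hev] at h3
      have h4 : max |((T a b)^[i + 1] x : ℝ)| |((1 : ℤ) : ℝ)| ≤
          (|(a : ℝ)| + |(b : ℝ)|) * max |((T a b)^[i] x : ℝ)| |((1 : ℤ) : ℝ)| := by
        set M := max |((T a b)^[i] x : ℝ)| |((1 : ℤ) : ℝ)| with hM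
        have hxM : |((T a b)^[i] x : ℝ)| ≤ M := le_max_left _ _
        apply max_le
        · have h5 : (2 : ℝ) * (T a b)^[i + 1] x = a * (T a b)^[i] x + b := by exact_mod_cast h3
          have h6 : 2 * |((T a b)^[i + 1] x : ℝ)| = |(a : ℝ) * (T a b)^[i] x + b| := by
            rw [← h5, abs_mul]; norm_num
          have h7 : |(a : ℝ) * (T a b)^[i] x + b| ≤ |(a : ℝ)| * M + |(b : ℝ)| := by
            refine (abs_add_le _ _).trans ?_
            rw [abs_mul]
            have := mul_le_mul_of_nonneg_left hxM (abs_nonneg (a : ℝ))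
            linarith
          have h8 := abs_nonneg ((T a b)^[i + 1] x : ℝ)
          nlinarith
        · rw [Int.cast_one, abs_one]
          nlinarith
      have h5 : ℓ (i + 1) ≤ c + ℓ i := by
        simp only [hℓ, ht, hc]
        rw [← Real.log_mul (by positivity) (by positivity)]
        exact Real.log_le_log (by linarith) h4
      nlinarith
  have h3 := sum_le_sum h2
  rw [h1, sum_add_distrib, ← mul_sum, sum_sub_distrib, ← mul_sum, ← mul_sum, sum_const, card_range,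
    nsmul_eq_mul] at h3
  have h4 : 0 ≤ c ^ 2 * p := by positivity
  linarith

lemma adm_one {b : ℤ} (hb : b % 2 = 1) (x : ℤ) : Adm a b 1 x :=
  ⟨by rw [mul_one]; exact hb, isCoprime_one_right, isCoprime_one_right⟩

/-- sums over the cycles of a fixed map -/
theorem cyc_sum (hS : ∀ p ∈ S, p.Prime) (ha : a % 2 = 1) (ha3 : 3 ≤ |a|) {b : ℤ} (hb : b % 2 = 1)
    {f : ℤ[X]} (hf : f ≠ 0) {ε : ℝ} (hε : 0 < ε) :
    {Z : Finset ℤ | IsCyc a b Z ∧ ε * ∑ y ∈ Z, (if y % 2 = 0 then 0 else ht y 1) <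
      ∑ y ∈ Z, phi S a b 1 f y}.Finite := by
  have ha0 : a ≠ 0 := by rintro rfl; simp at ha
  have hb0 : b ≠ 0 := by rintro rfl; simp at hb
  have haR : (1 : ℝ) ≤ |(a : ℝ)| := by exact_mod_cast Int.one_le_abs ha0
  have hbR : (1 : ℝ) ≤ |(b : ℝ)| := by exact_mod_cast Int.one_le_abs hb0
  have hlog2 : 0 < Real.log 2 := Real.log_pos (by norm_num)
  set c := Real.log (|(a : ℝ)| + |(b : ℝ)|) with hc
  have hc2 : Real.log 2 ≤ c := Real.log_le_log (by norm_num) (by linarith)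
  have hc0 : 0 < c := by linarith
  set Q : ℝ := 2 * (1 + c / Real.log 2) with hQ
  have hQ0 : 0 < Q := by positivity
  obtain ⟨K, hK, h⟩ := cyc_bound hS ha b hf (ε := ε / (2 * Q)) (by positivity)
  set A1 : ℝ := K * (2 * Q) / ε with hA1
  set A2 : ℝ := 2 * (c ^ 2 / Real.log 2) with hA2
  have hA10 : 0 ≤ A1 := by positivity
  have hA20 : 0 ≤ A2 := by positivity
  obtain ⟨p0, hp0⟩ := large_mean (A1 + A2)
  apply (finite_small ha hb rfl ha3 (p0 + 1)).subset
  rintro Z ⟨hZ, hlt⟩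
  refine ⟨hZ, ?_⟩
  by_contra hcon
  push Not at hcon
  obtain ⟨x, hp1, hx, hinj, himg, _⟩ := cyc_data ha hb rfl ha3 hZ
  set p := Z.card with hp
  rw [sum_cyc hinj himg, sum_cyc hinj himg] at hlt
  have h1 := hp0 a b 1 x p (by omega) one_ne_zero hinj
  have h2 := even_sum ha hb hx
  rw [← hc] at h2
  have h3 := h 1 x p (adm_one hb x) (by rw [mul_one]; exact hx)
  rw [mul_one] at h3
  set A := ∑ i ∈ range p, phi S a b 1 f ((T a b)^[i] x) with hA
  set B := ∑ i ∈ range p, ht ((T a b)^[i] x) 1 with hB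
  set O := ∑ i ∈ range p, (if (T a b)^[i] x % 2 = 0 then 0 else ht ((T a b)^[i] x) 1) with hO
  set E := ∑ i ∈ range p, (if (T a b)^[i] x % 2 = 0 then ht ((T a b)^[i] x) 1 else 0) with hE
  have hBEO : B = O + E := by
    rw [hB, hO, hE, ← sum_add_distrib]
    refine sum_congr rfl fun i _ => ?_
    split_ifs <;> simp
  have hpR : (0 : ℝ) ≤ p := Nat.cast_nonneg p
  have h4 : E ≤ c / Real.log 2 * O + c ^ 2 / Real.log 2 * p := by
    have h5 : Real.log 2 * E ≤ Real.log 2 * (c / Real.log 2 * O + c ^ 2 / Real.log 2 * p) := by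
      refine h2.trans (le_of_eq ?_)
      field_simp
    exact le_of_mul_le_mul_left h5 hlog2
  have h5 : A2 * p ≤ B := by nlinarith
  have h6 : B ≤ Q * O := by
    have h7 : c ^ 2 / Real.log 2 * p ≤ B / 2 := by
      rw [hA2] at h5; linarith
    rw [hQ]
    have h8 : B ≤ (1 + c / Real.log 2) * O + B / 2 := by
      have : (1 + c / Real.log 2) * O = O + c / Real.log 2 * O := by ring
      rw [this]; linarith
    linarith
  have h7 : K * p ≤ ε / (2 * Q) * B := by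
    have h8 : A1 * p ≤ B := by nlinarith
    have h9 : ε / (2 * Q) * (A1 * p) = K * p := by
      rw [hA1]; field_simp
    rw [← h9]
    exact mul_le_mul_of_nonneg_left h8 (by positivity)
  have h8 : 2 * (ε / (2 * Q) * B) ≤ ε * O := by
    have h9 : ε / (2 * Q) * B ≤ ε / (2 * Q) * (Q * O) := mul_le_mul_of_nonneg_left h6 (by positivity)
    have h10 : ε / (2 * Q) * (Q * O) = ε * O / 2 := by field_simp
    linarith
  linarith

/-- counting in the cycles of a fixed map -/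
theorem cyc_count (hS : ∀ p ∈ S, p.Prime) (ha : a % 2 = 1) (ha3 : 3 ≤ |a|) {b : ℤ} (hb : b % 2 = 1)
    {f : ℤ[X]} (hf : f ≠ 0) {ε : ℝ} (hε : 0 < ε) :
    {Z : Finset ℤ | IsCyc a b Z ∧ ε * Z.card < ∑ y ∈ Z, ind S a b 1 f ε y}.Finite := by
  have h := cyc_count_unif hS ha ha3 b hf hε
  refine Set.Finite.subset (h.image Prod.snd) ?_
  rintro Z ⟨hZ, hlt⟩
  refine ⟨(1, Z), ⟨⟨by simpa using hb, isCoprime_one_right, by simpa using hZ,
    fun y _ => isCoprime_one_right⟩, hlt⟩, rfl⟩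

end Pool.Agent.V5helper76.SPG
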